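import Mathlib
import Pool.Agent.R504.RestrPart

set_option autoImplicit false

/-!
# Restricted partition functions with small odd density (MP_cb5b52_nt)

For every `ε > 0` there is a strictly increasing sequence `A` of positive integers with `gcd A = 1`,
such that every prime divides some term of `A`, and `δ_A(k) ≤ ε` for all large `k`. In particular
`δ_A(k)` does not tend to `1/2`.

The sequence is `1, 2, 4, …, 2^(J-1), 2^J, 2 * 2^J, 3 * 2^J, 4 * 2^J, …`. Modulo 2 the product of the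
factors `1 - x^(2^i)`, `i < J`, is `(1 - x^(2^J)) / (1 - x)`, so the generating function of
`p_A(n, k)`, `k ≥ J`, is `(1 - x)` times a power series in `x^(2^J)`: only the classes 0 and 1 modulo
`2^J` contain integers `n` with `p_A(n, k)` odd.
-/

namespace Pool.Agent.Results.MP_cb5b52_nt.SmallOddDensity

open Pool.Agent.R504.RestrPart Filter Topology

/-- the sequence `1, 2, …, 2^(J-1), 2^J, 2 * 2^J, 3 * 2^J, …` -/
def sq (J : ℕ) (i : ℕ) : ℕ := if i < J then 2 ^ i else 2 ^ J * (i - J + 1)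

lemma sq_pos (J i : ℕ) : 0 < sq J i := by
  unfold sq
  split_ifs <;> positivity

lemma sq_strictMono (J : ℕ) : StrictMono (sq J) := by
  apply strictMono_nat_of_lt_succ
  intro i
  unfold sq
  split_ifs with h1 h2 h2
  · exact Nat.pow_lt_pow_right (by norm_num) (Nat.lt_succ_self i)
  · have h3 : 2 ^ i < 2 ^ J := Nat.pow_lt_pow_right (by norm_num) h1
    exact h3.trans_le (Nat.le_mul_of_pos_right _ (Nat.succ_pos _))
  · omega
  · exact Nat.mul_lt_mul_of_pos_left (by omega) (by positivity)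

open PowerSeries in
lemma two_eq_zero : (2 : (ZMod 2)⟦X⟧) = 0 := by
  have : (2 : PowerSeries (ZMod 2)) = PowerSeries.C (2 : ZMod 2) := rfl
  rw [this, show (2 : ZMod 2) = 0 from rfl, map_zero]

open PowerSeries in
lemma prod_two (J : ℕ) :
    (1 - X) * ∏ i ∈ Finset.range J, (1 - X ^ 2 ^ i : (ZMod 2)⟦X⟧) = 1 - X ^ 2 ^ J := by
  induction J with
  | zero => simp
  | succ J ih =>
    rw [Finset.prod_range_succ, ← mul_assoc, ih, pow_succ 2 J, pow_mul]
    linear_combination (-X ^ 2 ^ J + (X ^ 2 ^ J) ^ 2) * two_eq_zero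

open PowerSeries in
lemma support (J k : ℕ) (hk : J ≤ k) (n : ℕ) (hn : f (sq J) k n ≠ 0) : n % 2 ^ J ≤ 1 := by
  by_contra hcon
  apply hn
  have hne : (2 ^ J : ℕ) ≠ 0 := by positivity
  set V : (ZMod 2)⟦X⟧ := (1 - X) * ∏ l ∈ Finset.range (k - J), (1 - X ^ (l + 1)) with hV
  have hVc : constantCoeff V = 1 := by
    rw [hV]
    simp
  obtain ⟨V', hV'⟩ : ∃ V', V * V' = 1 := ⟨invOfUnit V 1, mul_invOfUnit V 1 (by simpa using hVc)⟩
  have h1 := gen (ZMod 2) (sq J) (sq_pos J) k
  have h2 : ∏ i ∈ Finset.range k, (1 - X ^ sq J i : (ZMod 2)⟦X⟧) =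
      (∏ i ∈ Finset.range J, (1 - X ^ 2 ^ i)) *
        ∏ l ∈ Finset.range (k - J), (1 - X ^ (2 ^ J * (l + 1))) := by
    obtain ⟨m, rfl⟩ := Nat.exists_eq_add_of_le hk
    rw [Finset.prod_range_add, Nat.add_sub_cancel_left]
    congr 1
    · apply Finset.prod_congr rfl
      intro i hi
      rw [sq, if_pos (Finset.mem_range.1 hi)]
    · apply Finset.prod_congr rfl
      intro i _
      rw [sq, if_neg (by omega), Nat.add_sub_cancel_left]
  have h3 : expand (2 ^ J) hne V = (1 - X ^ 2 ^ J) *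
      ∏ l ∈ Finset.range (k - J), (1 - X ^ (2 ^ J * (l + 1))) := by
    rw [hV]
    simp only [map_mul, map_sub, map_one, expand_X, map_prod, map_pow, ← pow_mul]
  have h4 : (PowerSeries.mk (f (sq J) k)) * expand (2 ^ J) hne V = 1 - X := by
    rw [h3, ← prod_two J]
    rw [h2] at h1
    have h5 : (PowerSeries.mk (f (sq J) k)) = PowerSeries.mk fun n => (rp (sq J) n k : ZMod 2) := rfl
    rw [h5]
    linear_combination (1 - X) * h1
  have h5 : PowerSeries.mk (f (sq J) k) = expand (2 ^ J) hne V' - X ^ 1 * expand (2 ^ J) hne V' := by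
    have h6 := congrArg (expand (2 ^ J) hne) hV'
    rw [map_mul, map_one] at h6
    linear_combination (expand (2 ^ J) hne V') * h4 - (PowerSeries.mk (f (sq J) k)) * h6
  have h6 := congrArg (coeff n) h5
  rw [coeff_mk, map_sub, coeff_X_pow_mul', coeff_expand, coeff_expand] at h6
  rw [h6]
  have h7 : ¬ 2 ^ J ∣ n := fun h => hcon (by rw [Nat.mod_eq_zero_of_dvd h]; exact Nat.zero_le _)
  have h8 : 1 ≤ n := by
    rcases Nat.eq_zero_or_pos n with h | h
    · rw [h] at h7; exact absurd (dvd_zero _) h7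
    · exact h
  have h9 : ¬ 2 ^ J ∣ (n - 1) := by
    rintro ⟨c, hc⟩
    apply hcon
    have : n = 1 + 2 ^ J * c := by omega
    rw [this, Nat.add_mul_mod_self_left]
    exact Nat.mod_le _ _
  rw [if_neg h7, if_pos h8, if_neg h9, sub_zero]

lemma bound (J k : ℕ) (hk : J ≤ k) :
    (((Finset.range (P (sq J) k)).filter (fun n => Odd (rp (sq J) n k))).card : ℝ) / P (sq J) k ≤
      2 / 2 ^ J := by
  have hP : (0 : ℝ) < P (sq J) k := by exact_mod_cast P_pos _ (sq_pos J) k
  obtain ⟨m, hm⟩ : 2 ^ J ∣ P (sq J) k := (pow_dvd_pow 2 hk).trans (Dvd.intro_left _ rfl)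
  have h1 : ((Finset.range (P (sq J) k)).filter (fun n => Odd (rp (sq J) n k))).card ≤ m * 2 := by
    have h2 : ((Finset.range m) ×ˢ (Finset.range 2)).card = m * 2 := by simp
    rw [← h2]
    apply Finset.card_le_card_of_injOn (fun n => (n / 2 ^ J, n % 2 ^ J))
    · intro n hn
      have hn' := Finset.mem_filter.1 (Finset.mem_coe.1 hn)
      have h3 := support J k hk n ((odd_iff_f _ _ _).1 hn'.2)
      have h4 := Finset.mem_range.1 hn'.1
      rw [Finset.mem_coe, Finset.mem_product, Finset.mem_range, Finset.mem_range]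
      refine ⟨?_, Nat.lt_succ_of_le h3⟩
      rw [hm] at h4
      exact Nat.div_lt_of_lt_mul h4
    · intro x _ y _ hxy
      simp only [Prod.mk.injEq] at hxy
      rw [← Nat.div_add_mod x (2 ^ J), ← Nat.div_add_mod y (2 ^ J), hxy.1, hxy.2]
  rw [div_le_div_iff₀ hP (by positivity)]
  have h3 : (P (sq J) k : ℝ) = 2 ^ J * m := by exact_mod_cast hm
  have h4 : (((Finset.range (P (sq J) k)).filter (fun n => Odd (rp (sq J) n k))).card : ℝ) ≤ m * 2 := by
    exact_mod_cast h1
  rw [h3]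
  have h5 : (0 : ℝ) < 2 ^ J := by positivity
  nlinarith

theorem result (ε : ℝ) (hε : 0 < ε) :
    ∃ a : ℕ → ℕ, StrictMono a ∧ (∀ i, 0 < a i) ∧ (∀ d, (∀ i, d ∣ a i) → d = 1) ∧
      (∀ p, Nat.Prime p → ∃ i, p ∣ a i) ∧
      ∃ δ : ℕ → ℝ,
        (∀ k, 1 ≤ k → Tendsto (fun N : ℕ =>
          (((Finset.range (N + 1)).filter (fun n => Odd (rp a n k))).card : ℝ) / N)
          atTop (𝓝 (δ k))) ∧
        (∃ K, ∀ k, K ≤ k → δ k ≤ ε) ∧ ¬ Tendsto δ atTop (𝓝 (1 / 2)) := by
  obtain ⟨J, hJ⟩ : ∃ J : ℕ, (2 : ℝ) / 2 ^ J < min ε (1 / 4) := by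
    obtain ⟨J, hJ⟩ := exists_pow_lt_of_lt_one (show (0 : ℝ) < min ε (1 / 4) / 2 by positivity)
      (show (1 / 2 : ℝ) < 1 by norm_num)
    refine ⟨J, ?_⟩
    rw [one_div, inv_pow] at hJ
    rw [div_eq_mul_inv]
    linarith
  have hJ1 : (2 : ℝ) / 2 ^ J < ε := hJ.trans_le (min_le_left _ _)
  have hJ2 : (2 : ℝ) / 2 ^ J < 1 / 4 := hJ.trans_le (min_le_right _ _)
  have hJ0 : 0 < J := by
    rcases Nat.eq_zero_or_pos J with h | h
    · rw [h] at hJ2; norm_num at hJ2
    · exact h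
  refine ⟨sq J, sq_strictMono J, sq_pos J, ?_, ?_, ?_⟩
  · intro d hd
    have h1 := hd 0
    rw [sq, if_pos hJ0, pow_zero] at h1
    exact Nat.dvd_one.1 h1
  · intro p hp
    refine ⟨J + p - 1, ?_⟩
    have := hp.pos
    rw [sq, if_neg (by omega), show J + p - 1 - J + 1 = p by omega]
    exact Dvd.intro_left _ rfl
  · refine ⟨fun k => (((Finset.range (P (sq J) k)).filter (fun n => Odd (rp (sq J) n k))).card : ℝ) /
      P (sq J) k, fun k hk => density_exists _ (sq_pos J) k hk, ⟨J, fun k hk =>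
      (bound J k hk).trans hJ1.le⟩, ?_⟩
    intro hlim
    have h1 : (1 / 2 : ℝ) ≤ 1 / 4 := by
      apply le_of_tendsto hlim
      filter_upwards [eventually_ge_atTop J] with k hk
      exact (bound J k hk).trans hJ2.le
    norm_num at h1

end Pool.Agent.Results.MP_cb5b52_nt.SmallOddDensity
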